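import Mathlib
import Pool.Agent.H2.Tori4

set_option autoImplicit false

namespace Pool.Agent.Results.MP_7de521_nt.NotRealClosure

/-- identity component of the closure of a subgroup -/
def identityComponent {G : Type} [Group G] [TopologicalSpace G] [IsTopologicalGroup G]
    (T : Subgroup G) : Subgroup G :=
  (Subgroup.connectedComponentOfOne T.topologicalClosure).map T.topologicalClosure.subtype

/-- the real expected answer for `L`, for an embedding `j` of `K` in a real algebra `R` whose
rational structure is given by the basis `b` -/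
def Expected {K R J : Type} [Field K] [CommRing R] [Algebra ℝ R] [TopologicalSpace R]
    [IsTopologicalRing R] (j : K →+* R) (b : Module.Basis J ℝ R) (L : Subgroup Kˣ) : Prop :=
  ∃ (S : Set (MvPolynomial J ℚ)) (B : Subgroup Rˣ),
    (∀ x : Rˣ, x ∈ B ↔ ∀ p ∈ S, MvPolynomial.aeval (fun i => b.repr (x : R) i) p = 0) ∧
    identityComponent (L.map (Units.map j.toMonoidHom)) ≤ B ∧
    ((identityComponent (L.map (Units.map j.toMonoidHom))).subgroupOf B).FiniteIndex

theorem result : ¬ ∀ (K : Type) [Field K] [NumberField K] (L : Subgroup Kˣ), L.FG →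
    Expected (NumberField.mixedEmbedding K) (NumberField.mixedEmbedding.latticeBasis K) L := by
  intro H
  obtain ⟨K, _, _, _, ι, s, D⟩ := Pool.Agent.H2.Tori.exists_data
  obtain ⟨S, B, hS, hle, hfin⟩ := H K D.Psi.range
    ((Group.fg_iff_subgroup_fg _).1 inferInstance)
  exact D.no_subgroup S B _ rfl hS hle hfin

end Pool.Agent.Results.MP_7de521_nt.NotRealClosure
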